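import Pool.Agent.K7.H41.OP.Stm

set_option autoImplicit false

/-!
# Job BIJ of project OP
-/

namespace Pool.Agent.K7.H77.OPBIJ

open Pool.Agent.K7.H41.OP

theorem cen_comm {G H : Type} [Group G] [Group H] {f : G →* H} (hf : Cen f) {x : G}
    (hx : x ∈ commutator G) : f x = 1 := by
  have h : commutator G ≤ f.ker := by
    rw [commutator_def, Subgroup.commutator_le]
    intro g _ h _
    rw [MonoidHom.mem_ker, map_commutatorElement, commutatorElement_eq_one_iff_mul_comm]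
    exact (Subgroup.mem_center_iff.1 (hf g) (f h)).symm
  exact h hx

theorem hom_comm {G H : Type} [Group G] [Group H] (f : G →* H) {x : G}
    (hx : x ∈ commutator G) : f x ∈ commutator H := by
  have h : commutator G ≤ (commutator H).comap f := by
    rw [commutator_def, Subgroup.commutator_le]
    intro g _ h _
    rw [Subgroup.mem_comap, map_commutatorElement]
    exact Subgroup.commutator_mem_commutator (Subgroup.mem_top _) (Subgroup.mem_top _)
  exact h hx

theorem ab_comm {G H : Type} [Group G] [CommGroup H] (f : G →* H) {x : G}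
    (hx : x ∈ commutator G) : f x = 1 :=
  cen_comm (f := f) (fun g => by rw [Subgroup.mem_center_iff]; intro h; exact mul_comm _ _) hx

theorem L_inj {n : ℕ} {k : ℕ} (hk : 0 < k) {v w : L n} (h : v ^ k = w ^ k) : v = w := by
  have h1 : k • (Multiplicative.toAdd v) = k • (Multiplicative.toAdd w) := by
    rw [← toAdd_pow, ← toAdd_pow, h]
  apply Multiplicative.toAdd.injective
  funext i
  have h2 := congrFun h1 i
  simp only [Pi.smul_apply, nsmul_eq_mul] at h2
  have h3 : (k : ℤ) ≠ 0 := by exact_mod_cast hk.ne'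
  exact mul_left_cancel₀ h3 h2

theorem pm_dvd {G : Type} [Group G] {k m : ℕ} {x : G} (h : Pm G m x) (hk : k ∣ m) : Pm G k x := by
  obtain ⟨y, hy⟩ := h
  obtain ⟨j, rfl⟩ := hk
  refine ⟨y ^ j, ?_⟩
  rwa [← pow_mul, mul_comm j k]

theorem t : StBij := by
  intro A B _ _ D m hm φ hZ h
  obtain ⟨⟨hβ, hγ⟩, ⟨hβ', hγ'⟩⟩ := hZ
  obtain ⟨α, hα⟩ : ∃ α : A →* A, α = al φ := ⟨_, rfl⟩
  obtain ⟨α', hα'⟩ : ∃ α' : A →* A, α' = al φ⁻¹ := ⟨_, rfl⟩
  obtain ⟨M, hM⟩ : ∃ M : ℕ, M = D.c ^ 2 * m * D.t := ⟨_, rfl⟩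
  rw [← hM, ← hα] at h
  rw [← hα]
  have hM0 : 0 < M := by
    rw [hM]
    exact Nat.mul_pos (Nat.mul_pos (pow_pos D.hc 2) hm) D.ht
  have htM : D.t ∣ M := by rw [hM]; exact Dvd.intro_left _ rfl
  -- values
  have hv : ∀ a : A, φ (a, 1) = (α a, ga φ a) := by
    intro a
    rw [hα]
    rfl
  have hvb : ∀ a : A, ∀ b : B, φ (a, b) = (α a * be φ b, ga φ a * de φ b) := by
    intro a b
    have h1 : ((a, b) : A × B) = (a, 1) * (1, b) := by simp
    rw [h1, map_mul, hv]
    rfl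
  have hv' : ∀ a : A, φ⁻¹ (a, 1) = (α' a, ga φ⁻¹ a) := by
    intro a
    rw [hα']
    rfl
  have hcomp : ∀ a : A, α (α' a) * be φ (ga φ⁻¹ a) = a := by
    intro a
    have h1 : φ (φ⁻¹ (a, 1)) = (a, 1) := MulAut.apply_inv_self _ φ _
    rw [hv', hvb] at h1
    exact congrArg Prod.fst h1
  -- centre
  have hcen : ∀ w ∈ Subgroup.center A, α w ∈ Subgroup.center A := by
    intro w hw
    have h1 : ((w, 1) : A × B) ∈ Subgroup.center (A × B) := by
      rw [Subgroup.mem_center_iff] at hw ⊢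
      rintro ⟨a, b⟩
      simp [hw a]
    have h2 : φ (w, 1) ∈ Subgroup.center (A × B) := by
      rw [Subgroup.mem_center_iff] at h1 ⊢
      intro g
      have h3 := congrArg φ (h1 (φ⁻¹ g))
      rw [map_mul, map_mul, MulAut.apply_inv_self] at h3
      exact h3
    rw [hv, Subgroup.mem_center_iff] at h2
    rw [Subgroup.mem_center_iff]
    intro g
    have h3 := h2 (g, 1)
    exact congrArg Prod.fst h3
  -- the lattice map
  have hY0 : ∀ v : L D.n, ∃ y : L D.n, D.r (α (D.s v)) = v ^ D.c * y ^ M := by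
    intro v
    obtain ⟨y, hy⟩ := h (D.s v)
    refine ⟨D.r y, ?_⟩
    have h1 := ab_comm D.r hy
    rw [map_mul, map_mul, map_inv, map_inv, map_pow, D.rs] at h1
    have h2 : D.r (α (D.s v)) * (v ^ D.c)⁻¹ = D.r y ^ M := mul_inv_eq_one.1 h1
    rw [mul_comm, ← h2]
    simp
  choose Y0 hY0 using hY0
  obtain ⟨Y, hY⟩ : ∃ Y : L D.n →* L D.n, ∀ v, D.r (α (D.s v)) = v ^ D.c * Y v ^ M := by
    refine ⟨MonoidHom.mk' Y0 (fun v w => ?_), hY0⟩
    apply L_inj hM0
    have h1 := hY0 (v * w)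
    rw [map_mul, map_mul, map_mul, hY0 v, hY0 w, mul_pow] at h1
    rw [mul_pow]
    have h2 : v ^ D.c * Y0 v ^ M * (w ^ D.c * Y0 w ^ M) =
        v ^ D.c * w ^ D.c * (Y0 v ^ M * Y0 w ^ M) := mul_mul_mul_comm _ _ _ _
    rw [h2] at h1
    exact (mul_left_cancel h1).symm
  -- the corrected map
  obtain ⟨S, hS⟩ : ∃ S : A →* A, S = D.s.comp (Y.comp D.r) := ⟨_, rfl⟩
  have hSv : ∀ a, S a = D.s (Y (D.r a)) := by
    intro a
    rw [hS]
    rfl
  have hSc : ∀ a, S a ∈ Subgroup.center A := by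
    intro a
    rw [hSv]
    exact D.sc _
  have hScp : ∀ a (j : ℕ), S a ^ j ∈ Subgroup.center A := fun a j => Subgroup.pow_mem _ (hSc a) j
  obtain ⟨k, hk⟩ : ∃ k : A →* A, ∀ a, k a = α a * (S a ^ (m * D.t))⁻¹ := by
    refine ⟨MonoidHom.mk' (fun a => α a * (S a ^ (m * D.t))⁻¹) (fun a b => ?_), fun a => rfl⟩
    have h1 := Subgroup.mem_center_iff.1 (Subgroup.inv_mem _ (hScp a (m * D.t)))
    have h2 : S (a * b) ^ (m * D.t) = S b ^ (m * D.t) * S a ^ (m * D.t) := by
      rw [map_mul, Commute.mul_pow]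
      · exact (Subgroup.mem_center_iff.1 (hScp a (m * D.t)) _).symm
      · exact (Subgroup.mem_center_iff.1 (hSc a) _).symm
    rw [map_mul, h2, mul_inv_rev]
    calc α a * α b * ((S a ^ (m * D.t))⁻¹ * (S b ^ (m * D.t))⁻¹)
        = α a * (α b * (S a ^ (m * D.t))⁻¹) * (S b ^ (m * D.t))⁻¹ := by group
      _ = α a * ((S a ^ (m * D.t))⁻¹ * α b) * (S b ^ (m * D.t))⁻¹ := by rw [h1]
      _ = _ := by group
  have hk1 : ∀ a, D.r a = 1 → k a = α a := by
    intro a ha
    rw [hk, hSv, ha, map_one, map_one, one_pow, inv_one, mul_one]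
  have hkc : ∀ w ∈ Subgroup.center A, k w ∈ Subgroup.center A := by
    intro w hw
    rw [hk]
    exact Subgroup.mul_mem _ (hcen w hw) (Subgroup.inv_mem _ (hScp _ _))
  -- `r (k w) = r w` on the centre
  have hrk : ∀ w ∈ Subgroup.center A, D.r (k w) = D.r w := by
    intro w hw
    obtain ⟨v, hv1⟩ := D.rc w hw
    have hz : (D.s v)⁻¹ * w ∈ Subgroup.center A :=
      Subgroup.mul_mem _ (Subgroup.inv_mem _ (D.sc v)) hw
    have hz1 : D.r ((D.s v)⁻¹ * w) = 1 := by
      rw [map_mul, map_inv, D.rs, hv1]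
      simp
    have hz2 := hom_comm α (D.tor _ hz hz1)
    have hz3 := ab_comm D.r hz2
    rw [map_pow, map_pow] at hz3
    have hz4 : D.r (α ((D.s v)⁻¹ * w)) = 1 := L_inj D.ht (by rw [hz3, one_pow])
    have h1 : D.r (α w) = D.r (α (D.s v)) := by
      rw [map_mul, map_mul, map_inv, map_inv, inv_mul_eq_one] at hz4
      exact hz4.symm
    rw [hk, map_mul, h1, hY, map_inv, map_pow, hSv, D.rs, hv1, map_pow]
    have h2 : ((Y v ^ D.c) ^ D.c) ^ (m * D.t) = Y v ^ M := by
      rw [← pow_mul, ← pow_mul]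
      congr 1
      rw [hM]
      ring
    rw [h2]
    simp
  -- injectivity
  have hinj : Function.Injective k := by
    rw [injective_iff_map_eq_one]
    intro a ha
    have h1 : α a ∈ Subgroup.center A := by
      have h2 := hk a
      rw [ha] at h2
      have h3 : α a = S a ^ (m * D.t) := by
        have := h2.symm
        exact mul_inv_eq_one.1 this
      rw [h3]
      exact hScp _ _
    have h2 : φ (a, 1) ∈ Subgroup.center (A × B) := by
      rw [hv, Subgroup.mem_center_iff]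
      rintro ⟨x, y⟩
      have h3 := Subgroup.mem_center_iff.1 h1 x
      have h4 := Subgroup.mem_center_iff.1 (hγ a) y
      exact Prod.ext h3 h4
    have h3 : a ∈ Subgroup.center A := by
      rw [Subgroup.mem_center_iff] at h2 ⊢
      intro g
      have h4 := h2 (φ (g, 1))
      rw [← map_mul, ← map_mul] at h4
      exact congrArg Prod.fst (φ.injective h4)
    have h4 : D.r a = 1 := by rw [← hrk a h3, ha, map_one]
    have h5 : α a = 1 := by rw [← hk1 a h4, ha]
    have h6 : Pm A D.t a⁻¹ := by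
      have h7 := h a
      rw [h5, one_mul] at h7
      exact pm_dvd h7 htM
    have h7 : a⁻¹ ∈ commutator A := by
      refine D.tf a⁻¹ h6 ⟨D.t, D.ht, ?_⟩
      rw [inv_pow]
      exact Subgroup.inv_mem _ (D.tor a h3 h4)
    have h8 : a ∈ commutator A := by
      have := Subgroup.inv_mem _ h7
      rwa [inv_inv] at this
    have h9 : φ (a, 1) = 1 := by
      rw [hv, h5, cen_comm hγ h8]
      rfl
    have h10 : ((a, 1) : A × B) = 1 := by
      apply φ.injective
      rw [h9, map_one]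
    exact congrArg Prod.fst h10
  -- surjectivity
  have hs1 : ∀ a ∈ commutator A, a ∈ k.range := by
    intro a ha
    have h1 := hcomp a
    rw [cen_comm hγ' ha, map_one, mul_one] at h1
    refine ⟨α' a, ?_⟩
    rw [hk1 _ (ab_comm D.r (hom_comm α' ha)), h1]
  have hs2 : ∀ a ∈ Subgroup.center A, D.r a = 1 → a ∈ k.range := by
    intro a ha har
    have h1 : α a * a⁻¹ ∈ commutator A := by
      refine D.tf _ (pm_dvd (h a) htM) ⟨D.t, D.ht, ?_⟩
      have hc : Commute (α a) a⁻¹ := by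
        have := Subgroup.mem_center_iff.1 (Subgroup.inv_mem _ ha) (α a)
        exact this
      rw [hc.mul_pow, inv_pow, ← map_pow]
      exact Subgroup.mul_mem _ (hom_comm α (D.tor a ha har))
        (Subgroup.inv_mem _ (D.tor a ha har))
    have h2 := Subgroup.mul_mem _ (Subgroup.inv_mem _ (hs1 _ h1)) (⟨a, rfl⟩ : k a ∈ k.range)
    rw [hk1 a har] at h2
    have h3 : (α a * a⁻¹)⁻¹ * α a = a := by group
    rwa [h3] at h2
  have hs3 : ∀ a ∈ Subgroup.center A, a ∈ k.range := by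
    intro a ha
    have h1 : k a * a⁻¹ ∈ Subgroup.center A :=
      Subgroup.mul_mem _ (hkc a ha) (Subgroup.inv_mem _ ha)
    have h2 : D.r (k a * a⁻¹) = 1 := by
      rw [map_mul, map_inv, hrk a ha, mul_inv_cancel]
    have h3 := Subgroup.mul_mem _ (Subgroup.inv_mem _ (hs2 _ h1 h2)) (⟨a, rfl⟩ : k a ∈ k.range)
    have h4 : (k a * a⁻¹)⁻¹ * k a = a := by group
    rwa [h4] at h3
  have hsurj : Function.Surjective k := by
    intro a
    have h1 : be φ (ga φ⁻¹ a) ∈ Subgroup.center A := hβ _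
    have h2 : S (α' a) ^ (m * D.t) * be φ (ga φ⁻¹ a) ∈ k.range :=
      hs3 _ (Subgroup.mul_mem _ (hScp _ _) h1)
    have h3 := Subgroup.mul_mem _ (⟨α' a, rfl⟩ : k (α' a) ∈ k.range) h2
    rw [hk] at h3
    have h4 : α (α' a) * (S (α' a) ^ (m * D.t))⁻¹ *
        (S (α' a) ^ (m * D.t) * be φ (ga φ⁻¹ a)) = a := by
      conv_rhs => rw [← hcomp a]
      group
    rw [h4] at h3
    exact h3
  -- the automorphism
  obtain ⟨κ, hκ⟩ : ∃ κ : MulAut A, ∀ a, κ a = k a :=
    ⟨MulEquiv.ofBijective k ⟨hinj, hsurj⟩, fun a => rfl⟩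
  refine ⟨κ, ((κ⁻¹ : MulAut A) : A ≃* A).toMonoidHom.comp
    ((D.s.comp ((powMonoidHom D.t).comp (Y.comp D.r)))), ?_, ?_⟩
  · intro a
    have h1 : D.s ((Y (D.r a)) ^ D.t) ∈ Subgroup.center A := D.sc _
    show (κ⁻¹ : MulAut A) (D.s ((Y (D.r a)) ^ D.t)) ∈ Subgroup.center A
    rw [Subgroup.mem_center_iff] at h1 ⊢
    intro g
    have h2 := congrArg (κ⁻¹ : MulAut A) (h1 (κ g))
    rw [map_mul, map_mul, MulAut.inv_apply_self] at h2
    exact h2
  · intro a
    show α a = κ (a * ((κ⁻¹ : MulAut A) (D.s ((Y (D.r a)) ^ D.t))) ^ m)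
    have h1 : D.s ((Y (D.r a)) ^ D.t) ^ m = D.s (Y (D.r a)) ^ (m * D.t) := by
      rw [map_pow, ← pow_mul, mul_comm D.t m]
    rw [map_mul, map_pow, MulAut.apply_inv_self, hκ, hk, hSv, h1, inv_mul_cancel_right]

end Pool.Agent.K7.H77.OPBIJ
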